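import Pool.Agent.H72.CH.Targets
import Pool.Agent.H44.FB.Basics

/-!
# Row CNP: canonical copies of names
-/

set_option autoImplicit false
set_option linter.unusedVariables false

namespace Pool.Agent.H52.CH.CNP

open Pool.Agent.H68.BP Pool.Agent.H58.SF Pool.Agent.H53.NR
open Pool.Agent.H57.AR (tp ty Ty)
open Pool.Agent.H57.LH (RmV)
open Pool.Agent.H44.KR (HB Tyi TpOn)
open Pool.Agent.H72.CH
open Pool.Agent.H44.FB (eq_of_tp rel_of_tp comp_of_tp)
open Function
open Classical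

/-- an increasing enumeration -/
theorem enum {N : Type} (J : Finset N) (r : N → ℕ) (hr : Set.InjOn r J) :
    ∃ (n : ℕ) (z : Fin n → N), (∀ i, z i ∈ J) ∧ (∀ p ∈ J, ∃ i, z i = p) ∧
      ∀ i j, r (z i) < r (z j) ↔ i < j := by
  let e := (J.image r).orderIsoOfFin rfl
  have h1 : ∀ i, ∃ p ∈ J, r p = (e i : ℕ) := fun i => Finset.mem_image.1 (e i).2
  choose z hz hrz using h1
  refine ⟨(J.image r).card, z, hz, fun p hp => ?_, fun i j => ?_⟩
  · refine ⟨e.symm ⟨r p, Finset.mem_image_of_mem r hp⟩, ?_⟩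
    apply hr (Finset.mem_coe.2 (hz _)) (Finset.mem_coe.2 hp)
    rw [hrz, OrderIso.apply_symm_apply]
  · rw [hrz, hrz]
    exact (Subtype.coe_lt_coe.trans e.lt_iff_lt)

theorem pf_CNP : T_CNP := by
  intro N δ 𝔻 m st hN hR hZ V lv hpl J
  obtain ⟨p₀⟩ := hN
  obtain ⟨J', r, hJ, hr, hpath⟩ := hZ (insert p₀ J)
  obtain ⟨n, z, hzJ, hzs, hzlt⟩ := enum J' r hr
  have hp₀ : p₀ ∈ J' := hJ (Finset.mem_insert_self p₀ J)
  have hJ1 : ∀ p ∈ J, p ∈ insert p₀ J := fun p hp => Finset.mem_insert_of_mem hp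
  have hJJ : ∀ p ∈ J, p ∈ J' := fun p hp => hJ (hJ1 p hp)
  obtain ⟨i₀, -⟩ := hzs p₀ hp₀
  have hzi : Injective z := by
    intro i j hij
    by_contra hne
    rcases lt_or_gt_of_ne hne with h | h
    · have h1 := (hzlt i j).2 h
      rw [hij] at h1
      exact lt_irrefl _ h1
    · have h1 := (hzlt j i).2 h
      rw [hij] at h1
      exact lt_irrefl _ h1
  let ix : N → Fin n := fun p => if h : ∃ i, z i = p then h.choose else i₀
  have hix : ∀ p ∈ J', z (ix p) = p := by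
    intro p hp
    have h : ∃ i, z i = p := hzs p hp
    show z (if h : ∃ i, z i = p then h.choose else i₀) = p
    rw [dif_pos h]
    exact h.choose_spec
  obtain ⟨K, e, hKe⟩ := hR n (m + m) (Fin (m + 1)) z hzi
  refine ⟨Finset.univ.image e, fun ψ => ?_⟩
  obtain ⟨φ₀, htp, hcol⟩ := hKe fun α =>
    ⟨lv (ψ fun i => e (α (Fin.castAdd m i))) (ψ fun i => e (α (Fin.natAdd m i))),
      Nat.lt_succ_of_le (hpl.le _ _)⟩
  have hval : ∀ x v a b : Fin m → N, (∀ i, x i ∈ J') → (∀ i, v i ∈ J') → (∀ i, a i ∈ J') →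
      (∀ i, b i ∈ J') → Ote 𝔻 r x v a b →
      lv (ψ fun i => e (φ₀ (ix (x i)))) (ψ fun i => e (φ₀ (ix (v i)))) =
        lv (ψ fun i => e (φ₀ (ix (a i)))) (ψ fun i => e (φ₀ (ix (b i)))) := by
    intro x v a b hx hv ha hb ho
    have hz1 : ∀ (x v : Fin m → N), (∀ i, x i ∈ J') → (∀ i, v i ∈ J') →
        ∀ q : Fin (m + m), z (ix (Sum.elim x v (finSumFinEquiv.symm q))) =
          Sum.elim x v (finSumFinEquiv.symm q) := by
      intro x v hx hv q
      apply hix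
      rcases finSumFinEquiv.symm q with i | i
      · exact hx i
      · exact hv i
    have h1 := hcol (fun q => ix (Sum.elim x v (finSumFinEquiv.symm q)))
      (fun q => ix (Sum.elim a b (finSumFinEquiv.symm q))) (by
        have h2 : (fun q => z (ix (Sum.elim x v (finSumFinEquiv.symm q)))) =
            fun q => Sum.elim x v (finSumFinEquiv.symm q) := funext (hz1 x v hx hv)
        have h3 : (fun q => z (ix (Sum.elim a b (finSumFinEquiv.symm q)))) =
            fun q => Sum.elim a b (finSumFinEquiv.symm q) := funext (hz1 a b ha hb)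
        rw [h2, h3]
        exact congrArg Prod.snd (comp_of_tp ho.1 fun q : Fin (m + m) => finSumFinEquiv.symm q))
      (fun i j => by
        rw [← hzlt, ← hzlt, hz1 x v hx hv, hz1 x v hx hv, hz1 a b ha hb, hz1 a b ha hb]
        exact ho.2 _ _)
    have h4 := congrArg (fun t : Fin (m + 1) => (t : ℕ)) h1
    simpa only [finSumFinEquiv_symm_apply_castAdd, finSumFinEquiv_symm_apply_natAdd,
      Sum.elim_inl, Sum.elim_inr] using h4
  have hmain : ∀ (l : ℕ) (a b c d : Fl st), (∀ i, a.1 i ∈ J ∧ b.1 i ∈ J ∧ c.1 i ∈ J ∧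
      d.1 i ∈ J) → l ≤ m → (∀ i : Fin m, a.1 i = b.1 i ↔ (i : ℕ) < l) → Agr l c.1 d.1 →
      lv (ψ fun i => e (φ₀ (ix (a.1 i)))) (ψ fun i => e (φ₀ (ix (b.1 i)))) ≤
        lv (ψ fun i => e (φ₀ (ix (c.1 i)))) (ψ fun i => e (φ₀ (ix (d.1 i)))) := by
    intro l a b c d hm hl hab hcd
    obtain ⟨L, x, v, hx0, hxL, hxJ, hvJ, hxv⟩ := hpath l a b c d
      (fun i => ⟨hJ1 _ (hm i).1, hJ1 _ (hm i).2.1, hJ1 _ (hm i).2.2.1, hJ1 _ (hm i).2.2.2⟩)
      hl hab hcd
    have haJ : ∀ i, a.1 i ∈ J' := fun i => hJJ _ (hm i).1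
    have hbJ : ∀ i, b.1 i ∈ J' := fun i => hJJ _ (hm i).2.1
    have hk : ∀ (k : ℕ) (h : k < L + 1),
        lv (ψ fun i => e (φ₀ (ix (a.1 i)))) (ψ fun i => e (φ₀ (ix (b.1 i)))) ≤
          lv (ψ fun i => e (φ₀ (ix (c.1 i)))) (ψ fun i => e (φ₀ (ix ((x ⟨k, h⟩).1 i)))) := by
      intro k
      induction k with
      | zero =>
        intro h
        have h1 : x ⟨0, h⟩ = c := hx0
        rw [h1, hpl.self]
        exact hpl.le _ _
      | succ k ih =>
        intro h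
        have hk' : k < L := Nat.lt_of_succ_lt_succ h
        have h1 := ih (Nat.lt_succ_of_lt hk')
        have h2 := hval _ _ _ _ (hxJ (⟨k, hk'⟩ : Fin L).castSucc) (hvJ ⟨k, hk'⟩) haJ hbJ
          (hxv ⟨k, hk'⟩).1
        have h3 := hval _ _ _ _ (hxJ (⟨k, hk'⟩ : Fin L).succ) (hvJ ⟨k, hk'⟩) haJ hbJ
          (hxv ⟨k, hk'⟩).2
        have h4 := (le_min h1 h2.ge).trans (hpl.ult _ _ _)
        rw [hpl.sym] at h3
        exact (le_min h4 h3.ge).trans (hpl.ult _ _ _)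
    have h5 := hk L (Nat.lt_succ_self L)
    have h6 : x ⟨L, Nat.lt_succ_self L⟩ = d := hxL
    rw [h6] at h5
    exact h5
  refine ⟨fun p => e (φ₀ (ix p)), fun p hp => Finset.mem_image_of_mem e (Finset.mem_univ _),
    ⟨fun p hp q hq => ?_, fun l w hw => ?_⟩, hmain⟩
  · have h1 := eq_of_tp htp (ix p) (ix q)
    rw [hix p (hJJ p hp), hix q (hJJ q hq)] at h1
    exact h1.symm
  · have h1 := rel_of_tp htp l fun i => ix (w i)
    have h2 : (fun i => z (ix (w i))) = fun i => id (w i) := funext fun i => hix _ (hJJ _ (hw i))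
    rw [h2] at h1
    exact h1.symm

end Pool.Agent.H52.CH.CNP
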