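import Pool.Agent.H72.CH.Targets
import Pool.Agent.H44.FB.Basics

/-!
# Row EMB: extension of partial isomorphisms to embeddings
-/

set_option autoImplicit false
set_option linter.unusedVariables false

namespace Pool.Agent.H52.CH

open Pool.Agent.H68.BP Pool.Agent.H58.SF Pool.Agent.H53.NR
open Pool.Agent.H57.AR (tp ty Ty)
open Pool.Agent.H57.LH (Hmg)
open Pool.Agent.H44.KR (HB Tyi TpOn)
open Pool.Agent.H44.FB
open Pool.Agent.H72.CH
open Function
open Classical

variable {V : Type} {ρ : Sig} {𝔹 : Str ρ V}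

/-- homogeneity for finite sets of a type which need not be finite -/
theorem hmg_fin {W : Type} (hh : Hmg 𝔹) (X : Finset W) (A : Set W) (hA : A ⊆ (X : Set W))
    (x y : W → V) (h : TpOn 𝔹 A x y) :
    ∃ x' : W → V, TpOn 𝔹 (X : Set W) x x' ∧ ∀ a ∈ A, x' a = y a := by
  obtain ⟨x'', h1, h2⟩ := hh {w // w ∈ X} {w | w.1 ∈ A} (fun w => x w.1)
    (fun w => y w.1) ⟨fun a ha b hb => h.1 _ ha _ hb, fun l z hz => h.2 l _ hz⟩
  have h4 : ∀ w (hw : w ∈ X), (if hw : w ∈ X then x'' ⟨w, hw⟩ else y w) = x'' ⟨w, hw⟩ :=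
    fun w hw => dif_pos hw
  refine ⟨fun w => if hw : w ∈ X then x'' ⟨w, hw⟩ else y w, ⟨?_, ?_⟩, ?_⟩
  · intro a ha b hb
    show x a = x b ↔ (if hw : a ∈ X then x'' ⟨a, hw⟩ else y a) =
      if hw : b ∈ X then x'' ⟨b, hw⟩ else y b
    rw [h4 a ha, h4 b hb]
    exact (eq_of_tp h1 ⟨a, ha⟩ ⟨b, hb⟩).symm
  · intro l z hz
    have h5 : (fun i => if hw : z i ∈ X then x'' ⟨z i, hw⟩ else y (z i)) =
        fun i => x'' ⟨z i, hz i⟩ := funext fun i => h4 _ (hz i)
    show 𝔹 l (fun i => x (z i)) ↔ 𝔹 l (fun i => if hw : z i ∈ X then x'' ⟨z i, hw⟩ else y (z i))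
    rw [h5]
    exact (rel_of_tp h1 l fun i => ⟨z i, hz i⟩).symm
  · intro a ha
    show (if hw : a ∈ X then x'' ⟨a, hw⟩ else y a) = y a
    rw [h4 a (hA ha)]
    exact h2 ⟨a, hA ha⟩ ha

/-- Partial isomorphisms extend to embeddings. -/
theorem pf_EMB : Pool.Agent.H72.CH.T_EMB := by
  intro V ρ 𝔹 m lv hV hcpt W _ x y hxy
  have hc : Countable V := hV.cnt
  have : Fintype W := Fintype.ofFinite W
  let U : Finset V := Finset.univ.image x
  let g₀ : V → V := fun v => if h : ∃ w, x w = v then y h.choose else v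
  have hg : ∀ w, g₀ (x w) = y w := by
    intro w
    have h1 : ∃ w', x w' = x w := ⟨w, rfl⟩
    show (if h : ∃ w', x w' = x w then y h.choose else x w) = y w
    rw [dif_pos h1]
    exact (eq_of_tp hxy _ _).1 h1.choose_spec
  have hU : TpOn 𝔹 (U : Set V) (fun v => v) g₀ := by
    have hex : ∀ v ∈ (U : Set V), ∃ w, x w = v := by
      intro v hv
      obtain ⟨w, -, hw⟩ := Finset.mem_image.1 hv
      exact ⟨w, hw⟩
    refine ⟨fun a ha b hb => ?_, fun l z hz => ?_⟩
    · obtain ⟨w, rfl⟩ := hex a ha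
      obtain ⟨w', rfl⟩ := hex b hb
      rw [hg, hg]
      exact eq_of_tp hxy w w'
    · choose u hu using fun i => hex (z i) (hz i)
      have h2 : z = fun i => x (u i) := funext fun i => (hu i).symm
      have h3 : (fun i => g₀ (z i)) = fun i => y (u i) := by
        funext i
        rw [← hu i, hg]
      rw [h3]
      have h4 : (fun i => z i) = fun i => x (u i) := h2
      rw [h4]
      exact rel_of_tp hxy l u
  obtain ⟨f, hf1, hf2⟩ := hcpt V U g₀ (fun Y F => TpOn 𝔹 (Y : Set V) (fun v => v) F)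
    (fun Y => by
      obtain ⟨F, h1, h2⟩ := hmg_fin hV.hmg (Y ∪ U) (U : Set V)
        (by
          intro v hv
          exact Finset.mem_coe.2 (Finset.mem_union_right _ hv))
        (fun v => v) g₀ hU
      exact ⟨F, tpo_mono h1 (by
        intro v hv
        exact Finset.mem_coe.2 (Finset.mem_union_left _ hv)), fun v hv => h2 v hv⟩)
    (fun Y Y' F hY h => tpo_mono h (by
      intro v hv
      exact hY hv))
    (fun Y F F' h hF => tpo_trans h hF)
  refine ⟨f, fun J a => ?_, fun w => ?_⟩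
  · refine Prod.ext ?_ ?_
    · funext i j
      refine propext ?_
      have h3 := (hf2 {a i, a j}).1 (a i) (by simp) (a j) (by simp)
      exact h3.symm
    · funext l z
      refine propext ?_
      have h3 := (hf2 (Finset.univ.image fun i => a (z i))).2 l (fun i => a (z i)) (fun i =>
        Finset.mem_coe.2 (Finset.mem_image_of_mem (fun i => a (z i)) (Finset.mem_univ i)))
      exact h3.symm
  · rw [hf1 (x w) (Finset.mem_image_of_mem x (Finset.mem_univ w))]
    exact hg w

end Pool.Agent.H52.CH
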