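import Pool.Agent.H72.CH.Targets
import Pool.Agent.H44.FB.Basics

/-!
# Row NQC: polymorphisms keep the levels of tuples of rigid pairs
-/

set_option autoImplicit false
set_option linter.unusedVariables false

namespace Pool.Agent.H52.CH.NQC

open Pool.Agent.H68.BP Pool.Agent.H58.SF Pool.Agent.H53.NR
open Pool.Agent.H57.AR (tp ty Ty)
open Pool.Agent.H44.KR (HB Tyi TpOn)
open Pool.Agent.H72.CH
open Pool.Agent.H44.FB (EmbC CptC)
open Function
open Classical

variable {V : Type} {ρ σ : Sig}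

/-- a step labelled by the pair `r` -/
def St (𝔸 : Str σ V) (r : V × V) (v v' : V) : Prop :=
  ∃ g, IsHom 𝔸 𝔸 g ∧ g r.1 = v ∧ g r.2 = v'

/-- There is a closed walk along the first `k` letters of `r`, modulo the level `l + 1`. -/
def Closed (𝔸 : Str σ V) (lv : V → V → ℕ) (l : ℕ) (r : ℕ → V × V) (k : ℕ) : Prop :=
  ∃ u : ℕ → V, l + 1 ≤ lv (u 0) (u k) ∧ ∀ i < k, St 𝔸 (r i) (u i) (u (i + 1))

theorem st_comp {𝔸 : Str σ V} {r : V × V} {v v' : V} (h : St 𝔸 r v v')
    {g' : V → V} (hg' : IsHom 𝔸 𝔸 g') : St 𝔸 r (g' v) (g' v') := by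
  obtain ⟨g, h1, rfl, rfl⟩ := h
  exact ⟨fun v => g' (g v), fun l x hx => hg' l _ (h1 l x hx), rfl, rfl⟩

theorem st_poly {𝔸 : Str σ V} {P : Type} {f : (P → V) → V} (hf : IsPoly 𝔸 𝔸 f)
    {r : V × V} {v v' : P → V} (h : ∀ p, St 𝔸 r (v p) (v' p)) : St 𝔸 r (f v) (f v') := by
  choose g hg1 hg2 hg3 using h
  refine ⟨fun t => f (fun p => g p t), ?_, ?_, ?_⟩
  · intro l x hx
    exact hf l (fun p k => g p (x k)) fun p => hg1 p l x hx
  · change f (fun p => g p r.1) = f v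
    congr 1
    exact funext hg2
  · change f (fun p => g p r.2) = f v'
    congr 1
    exact funext hg3

/-- Endomorphisms preserve the levels. -/
theorem uec_of_epc {𝔸 : Str σ V} {lv : V → V → ℕ} (hE : EPC 𝔸 lv) : UEC 𝔸 lv := by
  intro g hg x y
  refine hE Unit (fun t => g (t ())) (fun l z hz => hg l _ (hz ())) (lv x y) (fun _ => x)
    (fun _ => y) fun _ => le_rfl

/-- a step from an equality of types -/
theorem st_of_tp {𝔸 : Str σ V} {𝔹 : Str ρ V} (ht : Tyi 𝔸 𝔹) (hE : EmbC 𝔹) {a b a' b' : V}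
    (h : tp 𝔹 ![a', b'] = tp 𝔹 ![a, b]) : St 𝔸 (a, b) a' b' := by
  obtain ⟨g, hg1, hg2⟩ := hE (Fin 2) _ _ h.symm
  exact ⟨g, fun l x hx => ht l _ _ hx (hg1 _ x), hg2 0, hg2 1⟩

theorem st_swap {𝔸 : Str σ V} {a b a' b' : V} (h : St 𝔸 (a, b) a' b') : St 𝔸 (b, a) b' a' := by
  obtain ⟨g, h1, h2, h3⟩ := h
  exact ⟨g, h1, h3, h2⟩

/-- Closed walks of length `2 * L`. -/
theorem closed_pth {𝔸 : Str σ V} {𝔹 : Str ρ V} {m : ℕ} {lv : V → V → ℕ} (hV : HV 𝔹 m lv)
    (ht : Tyi 𝔸 𝔹) (hE : EmbC 𝔹) {L : ℕ} (hP : PthC 𝔹 lv L) {l : ℕ} (hl : l < m)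
    (r : ℕ → V × V) (hr : ∀ i, lv (r i).1 (r i).2 = l) : Closed 𝔸 lv l r (2 * L) := by
  obtain ⟨w⟩ := hV.ne
  have hpl := hV.lev.pl
  obtain ⟨x, v, hx0, hxL, hxv⟩ := hP l l (fun k => ![(r (2 * (k : ℕ))).1, (r (2 * (k : ℕ))).2])
    (fun k => ![(r (2 * (k : ℕ) + 1)).2, (r (2 * (k : ℕ) + 1)).1]) ![w, w]
    (fun k => hr (2 * (k : ℕ)))
    (fun k => (hpl.sym _ _).trans (hr (2 * (k : ℕ) + 1)))
    (by
      show min l l ≤ lv w w
      rw [hpl.self, min_self]
      exact hl.le)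
  let x' : ℕ → V := fun k => if h : k < L + 1 then x ⟨k, h⟩ else w
  let v' : ℕ → V := fun k => if h : k < L then v ⟨k, h⟩ else w
  have hx' : ∀ k (h : k < L + 1), x' k = x ⟨k, h⟩ := fun k h => dif_pos h
  have hv' : ∀ k (h : k < L), v' k = v ⟨k, h⟩ := fun k h => dif_pos h
  have st1 : ∀ k < L, St 𝔸 (r (2 * k)) (x' k) (v' k) := by
    intro k hk
    have h1 := (hxv ⟨k, hk⟩).1
    rw [hx' k (Nat.lt_succ_of_lt hk), hv' k hk]
    exact st_of_tp ht hE h1
  have st2 : ∀ k < L, St 𝔸 (r (2 * k + 1)) (v' k) (x' (k + 1)) := by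
    intro k hk
    have h1 := (hxv ⟨k, hk⟩).2
    rw [hx' (k + 1) (Nat.succ_lt_succ hk), hv' k hk]
    exact st_swap (st_of_tp ht hE h1)
  refine ⟨fun i => if i % 2 = 0 then x' (i / 2) else v' (i / 2), ?_, ?_⟩
  · have e0 : (if 0 % 2 = 0 then x' (0 / 2) else v' (0 / 2)) = w := by
      rw [if_pos (Nat.zero_mod 2), Nat.zero_div, hx' 0 (Nat.succ_pos L)]
      exact hx0
    have e1 : (if (2 * L) % 2 = 0 then x' (2 * L / 2) else v' (2 * L / 2)) = w := by
      rw [if_pos (by omega), show 2 * L / 2 = L by omega, hx' L (Nat.lt_succ_self L)]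
      exact hxL
    show l + 1 ≤ lv (if 0 % 2 = 0 then x' (0 / 2) else v' (0 / 2))
      (if (2 * L) % 2 = 0 then x' (2 * L / 2) else v' (2 * L / 2))
    rw [e0, e1, hpl.self]
    exact hl
  · intro i hi
    rcases Nat.even_or_odd' i with ⟨k, hk | hk⟩
    · have e0 : (if i % 2 = 0 then x' (i / 2) else v' (i / 2)) = x' k := by
        rw [if_pos (by omega), show i / 2 = k by omega]
      have e1 : (if (i + 1) % 2 = 0 then x' ((i + 1) / 2) else v' ((i + 1) / 2)) = v' k := by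
        rw [if_neg (by omega), show (i + 1) / 2 = k by omega]
      show St 𝔸 (r i) (if i % 2 = 0 then x' (i / 2) else v' (i / 2))
        (if (i + 1) % 2 = 0 then x' ((i + 1) / 2) else v' ((i + 1) / 2))
      rw [e0, e1, hk]
      exact st1 k (by omega)
    · have e0 : (if i % 2 = 0 then x' (i / 2) else v' (i / 2)) = v' k := by
        rw [if_neg (by omega), show i / 2 = k by omega]
      have e1 : (if (i + 1) % 2 = 0 then x' ((i + 1) / 2) else v' ((i + 1) / 2)) =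
          x' (k + 1) := by
        rw [if_pos (by omega), show (i + 1) / 2 = k + 1 by omega]
      show St 𝔸 (r i) (if i % 2 = 0 then x' (i / 2) else v' (i / 2))
        (if (i + 1) % 2 = 0 then x' ((i + 1) / 2) else v' ((i + 1) / 2))
      rw [e0, e1, hk]
      exact st2 k (by omega)

theorem pf_NQC : T_NQC := by
  intro V ρ σ 𝔹 m lv 𝔸 hV ht hE hL hEP P _ _ f hf l hl x y hxy
  have hpl := hV.lev.pl
  have hU := uec_of_epc hEP
  obtain ⟨L, hL1, hP⟩ := hL
  have h0 : l ≤ lv (f x) (f y) := hEP P f hf l x y fun p => (hxy p).1.ge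
  by_contra hne
  have hfxy : l + 1 ≤ lv (f x) (f y) := by omega
  -- longer words which are not closed
  have hC' : ∀ (r : ℕ → V × V) (k : ℕ),
      (∀ p, Closed 𝔸 lv l (Function.update r k (y p, x p)) (k + 1)) → Closed 𝔸 lv l r k := by
    intro r k h
    have h1 : ∀ p, ∃ u : ℕ → V, l + 1 ≤ lv (u 0) (x p) ∧ u k = y p ∧
        ∀ i < k, St 𝔸 (r i) (u i) (u (i + 1)) := by
      intro p
      obtain ⟨u, hu1, hu2⟩ := h p
      obtain ⟨g, hg1, hg2, hg3⟩ := hu2 k (Nat.lt_succ_self k)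
      rw [Function.update_self] at hg2 hg3
      obtain ⟨g', hg'1, hg'2, hg'3⟩ := (hxy p).2 g hg1
      refine ⟨fun i => g' (u i), ?_, ?_, ?_⟩
      · change l + 1 ≤ lv (g' (u 0)) (x p)
        rw [← hg'2]
        have h2 : g (x p) = u (k + 1) := hg3
        rw [h2]
        exact hu1.trans (hU g' hg'1 _ _)
      · change g' (u k) = y p
        rw [← hg2]
        exact hg'3
      · intro i hi
        have h2 := hu2 i (Nat.lt_succ_of_lt hi)
        rw [Function.update_of_ne (ne_of_lt hi)] at h2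
        exact st_comp h2 hg'1
    choose u hu1 hu2 hu3 using h1
    refine ⟨fun i => f (fun p => u p i), ?_, ?_⟩
    · change l + 1 ≤ lv (f (fun p => u p 0)) (f (fun p => u p k))
      have h3 : (fun p => u p k) = y := funext hu2
      rw [h3]
      have h4 : l + 1 ≤ lv (f (fun p => u p 0)) (f x) :=
        hEP P f hf (l + 1) (fun p => u p 0) x hu1
      exact (le_min h4 hfxy).trans (hpl.ult _ _ _)
    · intro i hi
      exact st_poly hf fun p => hu3 p i hi
  have hlong : ∀ k : ℕ, ∃ r : ℕ → V × V, (∀ i, lv (r i).1 (r i).2 = l) ∧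
      ¬ Closed 𝔸 lv l r (k + 1) := by
    intro k
    induction k with
    | zero =>
      obtain ⟨p₀⟩ := (inferInstance : Nonempty P)
      refine ⟨fun _ => (x p₀, y p₀), fun _ => (hxy p₀).1, ?_⟩
      rintro ⟨u, hu1, hu2⟩
      obtain ⟨g, hg1, hg2, hg3⟩ := hu2 0 (Nat.lt_succ_self 0)
      obtain ⟨g', hg'1, hg'2, hg'3⟩ := (hxy p₀).2 g hg1
      have h1 : l + 1 ≤ lv (g (x p₀)) (g (y p₀)) := by
        have h2 : g (x p₀) = u 0 := hg2
        have h3 : g (y p₀) = u (0 + 1) := hg3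
        rw [h2, h3]
        exact hu1
      have h4 := h1.trans (hU g' hg'1 _ _)
      rw [hg'2, hg'3, (hxy p₀).1] at h4
      omega
    | succ k ih =>
      obtain ⟨r, hr1, hr2⟩ := ih
      have h1 : ∃ p, ¬ Closed 𝔸 lv l (Function.update r (k + 1) (y p, x p)) (k + 1 + 1) := by
        by_contra hcon
        push Not at hcon
        exact hr2 (hC' r (k + 1) hcon)
      obtain ⟨p, hp⟩ := h1
      refine ⟨_, ?_, hp⟩
      intro i
      by_cases hi : i = k + 1
      · subst hi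
        rw [Function.update_self]
        exact (hpl.sym _ _).trans (hxy p).1
      · rw [Function.update_of_ne hi]
        exact hr1 i
  obtain ⟨r, hr1, hr2⟩ := hlong (2 * L - 1)
  rw [show 2 * L - 1 + 1 = 2 * L by omega] at hr2
  exact hr2 (closed_pth hV ht hE hP hl r hr1)

end Pool.Agent.H52.CH.NQC
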