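import Pool.Agent.H72.CH.Targets
import Pool.Agent.H44.FB.Basics

/-!
# Row RMX: copies on which unary maps preserve the levels
-/

set_option autoImplicit false
set_option linter.unusedVariables false

namespace Pool.Agent.H52.CH.RMX

open Pool.Agent.H68.BP Pool.Agent.H58.SF Pool.Agent.H53.NR
open Pool.Agent.H57.AR (tp ty Ty)
open Pool.Agent.H57.EQ (Cx)
open Pool.Agent.H44.KR (HB Tyi TpOn)
open Pool.Agent.H72.CH
open Pool.Agent.H44.FB (eq_of_tp rel_of_tp comp_of_tp tpo_comp tyi_rel)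
open Function
open Classical

/-- A monotone function of the level which takes all values is the level. -/
theorem lvl_eq {Q : Type} {m : ℕ} (D h : Q → ℕ) (hD : ∀ q, D q ≤ m)
    (mono : ∀ q q', D q ≤ D q' → h q ≤ h q') (hit : ∀ j ≤ m, ∃ q, h q = j) (q : Q) :
    h q = D q := by
  have hit' : ∀ j, ∃ q', j ≤ m → h q' = j := by
    intro j
    by_cases hj : j ≤ m
    · obtain ⟨q', hq'⟩ := hit j hj
      exact ⟨q', fun _ => hq'⟩
    · exact ⟨q, fun h => absurd h hj⟩
  choose f hf using hit'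
  have h1 : ∀ j, j ≤ m → j ≤ D (f j) := by
    intro j
    induction j with
    | zero => exact fun _ => Nat.zero_le _
    | succ j ih =>
      intro hj
      have h2 := ih (by omega)
      by_contra hcon
      have h4 := mono (f (j + 1)) (f j) (by omega)
      rw [hf (j + 1) hj, hf j (by omega)] at h4
      omega
  have h5 : ∀ i, i ≤ m → D (f (m - i)) ≤ m - i := by
    intro i
    induction i with
    | zero => exact fun _ => hD _
    | succ i ih =>
      intro hi
      have h2 := ih (by omega)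
      by_contra hcon
      have h4 := mono (f (m - i)) (f (m - (i + 1))) (by omega)
      rw [hf (m - i) (by omega), hf (m - (i + 1)) (by omega)] at h4
      omega
  have h6 : D (f (D q)) = D q := by
    refine le_antisymm ?_ (h1 _ (hD q))
    have h7 := h5 (m - D q) (Nat.sub_le _ _)
    rwa [Nat.sub_sub_self (hD q)] at h7
  have h8 := mono _ _ h6.le
  have h9 := mono _ _ h6.ge
  rw [hf _ (hD q)] at h8 h9
  exact le_antisymm h9 h8

/-- the relation of the elements which are equivalent for the relation `i + 1` -/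
def rs {V T : Type} {m : ℕ} {lv : V → V → ℕ} (hl : PLev m lv) (G : T → V) (i : Fin m) :
    Setoid T where
  r := fun t t' => (i : ℕ) + 1 ≤ lv (G t) (G t')
  iseqv := ⟨fun t => by
      rw [hl.self]
      exact i.2, fun h => by
      rw [hl.sym]
      exact h, fun h h' => (le_min h h').trans (hl.ult _ _ _)⟩

/-- the representative of the class of `t` -/
noncomputable def rp {V T : Type} {m : ℕ} {lv : V → V → ℕ} (hl : PLev m lv) (G : T → V)
    (i : Fin m) (t : T) : T := (Quotient.mk (rs hl G i) t).out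

theorem rp_eq {V T : Type} {m : ℕ} {lv : V → V → ℕ} (hl : PLev m lv) (G : T → V)
    (i : Fin m) (t t' : T) : rp hl G i t = rp hl G i t' ↔ (i : ℕ) < lv (G t) (G t') := by
  unfold rp
  rw [Quotient.out_inj]
  exact Quotient.eq (r := rs hl G i)

theorem pf_RMX : T_RMX := by
  intro V N ρ σ δ 𝔹 m lv 𝔸 𝔻 st β hV ht hN hX hC hNc n x
  have hl := hV.lev.pl
  obtain ⟨v₀⟩ := hV.ne
  have hNc' : ∀ j : Fin m, ∃ (n : ℕ) (G : Fin n → V), ∀ ψ : Fin n → V,
      Cx 𝔸 (fun _ : Unit => G) ψ → ∃ a b, lv (ψ a) (ψ b) = j := fun j => hNc j j.2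
  choose nn G hG using hNc'
  let T : Type := Fin n ⊕ Σ j : Fin m, Fin (nn j)
  let Gh : T → V := Sum.elim x fun p => G p.1 p.2
  let W : Type := Fin m × T
  let wt : T → Fl (Prod.fst : W → Fin m) := fun t => ⟨fun i => (i, rp hl Gh i t), fun i => rfl⟩
  have hwt : ∀ t t' (i : Fin m), (wt t).1 i = (wt t').1 i ↔ (i : ℕ) < lv (Gh t) (Gh t') := by
    intro t t' i
    rw [← rp_eq hl Gh i t t']
    exact ⟨fun h => congrArg Prod.snd h, fun h => Prod.ext rfl h⟩
  have hagr : ∀ t t', ∀ j ≤ m, Agr j (wt t).1 (wt t').1 ↔ j ≤ lv (Gh t) (Gh t') := by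
    intro t t' j hj
    constructor
    · intro h
      rcases Nat.eq_zero_or_pos j with h0 | h0
      · rw [h0]
        exact Nat.zero_le _
      · have h1 := (hwt t t' ⟨j - 1, by omega⟩).1 (h ⟨j - 1, by omega⟩ (by
          show j - 1 < j
          omega))
        change j - 1 < lv (Gh t) (Gh t') at h1
        omega
    · intro h i hi
      exact (hwt t t' i).2 (lt_of_lt_of_le hi h)
  let g : Fl (Prod.fst : W → Fin m) → V := fun u => if h : ∃ t, wt t = u then Gh h.choose else v₀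
  have hg : ∀ t, g (wt t) = Gh t := by
    intro t
    have h : ∃ t', wt t' = wt t := ⟨t, rfl⟩
    show (if h : ∃ t', wt t' = wt t then Gh h.choose else v₀) = Gh t
    rw [dif_pos h]
    apply hV.lev.eq
    have h1 := (hagr h.choose t m le_rfl).1 (by
      rw [h.choose_spec]
      exact fun _ _ => rfl)
    exact le_antisymm (hl.le _ _) h1
  obtain ⟨ζ, hζ, hst, hζt⟩ := hX W Prod.fst (Set.range wt) g Unit (fun _ => Set.range wt)
    (by
      rintro _ ⟨t, rfl⟩ _ ⟨t', rfl⟩ j hj h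
      rw [hg, hg]
      exact (hagr t t' j hj).1 h)
    (fun _ => le_rfl)
    (by
      rintro _ _ ⟨t, rfl⟩ _ ⟨t', rfl⟩ j hj h
      rw [hg, hg] at h
      exact (hagr t t' j hj).2 h)
  -- the flags of the elements
  let fl : T → Fl st := fun t => ⟨fun i => ζ ((wt t).1 i), fun i => hst _⟩
  have hfl : ∀ t t' (i : Fin m), (fl t).1 i = (fl t').1 i ↔ (i : ℕ) < lv (Gh t) (Gh t') := by
    intro t t' i
    rw [← hwt t t' i]
    exact ⟨fun h => hζ h, fun h => congrArg ζ h⟩
  have htp1 : tp 𝔹 Gh = tp 𝔹 fun t => β (fl t).1 := by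
    have h1 := tpo_comp (hζt ()) wt fun t => ⟨t, rfl⟩
    have h2 : (fun t => g (wt t)) = Gh := funext hg
    rw [h2] at h1
    exact h1
  have : Fintype T := Fintype.ofFinite T
  have : Fintype W := Fintype.ofFinite W
  let J : Finset N := Finset.univ.image ζ
  have hJ : ∀ w, ζ w ∈ J := fun w => Finset.mem_image_of_mem ζ (Finset.mem_univ w)
  obtain ⟨Y, hY⟩ := hC V lv hl J
  let e := Finite.equivFin (Fin m → {p // p ∈ Y})
  refine ⟨Nat.card (Fin m → {p // p ∈ Y}), fun q => β fun i => ((e.symm q) i).1,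
    fun ψ hψ => ?_⟩
  let ψ' : (Fin m → N) → V := fun w => if h : ∀ i, w i ∈ Y then ψ (e fun i => ⟨w i, h i⟩) else v₀
  obtain ⟨φ, hφY, hφt, hφm⟩ := hY ψ'
  have hφY' : ∀ t i, φ ((fl t).1 i) ∈ Y := fun t i => hφY _ (hJ _)
  let κ : T → Fin (Nat.card (Fin m → {p // p ∈ Y})) := fun t =>
    e fun i => ⟨φ ((fl t).1 i), hφY' t i⟩
  have hκψ : ∀ t, ψ' (fun i => φ ((fl t).1 i)) = ψ (κ t) := fun t => dif_pos (hφY' t)
  have hκy : ∀ t, (β fun i => ((e.symm (κ t)) i).1) = β fun i => φ ((fl t).1 i) := by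
    intro t
    show (β fun i => ((e.symm (e fun i => ⟨φ ((fl t).1 i), hφY' t i⟩)) i).1) = _
    rw [e.symm_apply_apply]
  have htp2 : tp 𝔹 (fun t => β (fl t).1) = tp 𝔹 fun t => β fun i => φ ((fl t).1 i) := by
    have h1 : tp 𝔻 ζ = tp 𝔻 fun w => φ (ζ w) :=
      tpo_comp hφt ζ fun w => Finset.mem_coe.2 (hJ w)
    exact hN.inv W ζ (fun w => φ (ζ w)) h1 T (fun t => (wt t).1) fun t i => hst _
  have htp : tp 𝔹 Gh = tp 𝔹 fun t => β fun i => ((e.symm (κ t)) i).1 := by
    have h1 : (fun t => β fun i => ((e.symm (κ t)) i).1) =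
        fun t => β fun i => φ ((fl t).1 i) := funext hκy
    rw [h1]
    exact htp1.trans htp2
  -- the levels of the values
  have hmono : ∀ t t' u u', lv (Gh t) (Gh t') ≤ lv (Gh u) (Gh u') →
      lv (ψ (κ t)) (ψ (κ t')) ≤ lv (ψ (κ u)) (ψ (κ u')) := by
    intro t t' u u' h
    have h1 := hφm (lv (Gh t) (Gh t')) (fl t) (fl t') (fl u) (fl u')
      (fun i => ⟨hJ _, hJ _, hJ _, hJ _⟩) (hl.le _ _) (hfl t t')
      (fun i hi => (hfl u u' i).2 (lt_of_lt_of_le hi h))
    rwa [hκψ, hκψ, hκψ, hκψ] at h1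
  have hhit : ∀ j : Fin m, ∃ t t', lv (ψ (κ t)) (ψ (κ t')) = j := by
    intro j
    obtain ⟨a, b, hab⟩ := hG j (fun a => ψ (κ (Sum.inr ⟨j, a⟩))) (by
      intro l z hz
      apply hψ l (fun a => κ (Sum.inr ⟨j, z a⟩))
      intro _
      exact tyi_rel ht htp l (fun a => Sum.inr ⟨j, z a⟩) (hz ()))
    exact ⟨_, _, hab⟩
  have hlev : ∀ u u', lv (ψ (κ u)) (ψ (κ u')) = lv (Gh u) (Gh u') := by
    intro u u'
    refine lvl_eq (Q := T × T) (m := m) (fun q => lv (Gh q.1) (Gh q.2))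
      (fun q => lv (ψ (κ q.1)) (ψ (κ q.2))) (fun q => hl.le _ _)
      (fun q q' h => hmono q.1 q.2 q'.1 q'.2 h) (fun j hj => ?_) (u, u')
    rcases Nat.lt_or_ge j m with h | h
    · obtain ⟨t, t', h1⟩ := hhit ⟨j, h⟩
      exact ⟨(t, t'), h1⟩
    · exact ⟨(u, u), (hl.self _).trans (le_antisymm h hj)⟩
  refine ⟨fun a => κ (Sum.inl a), ?_, fun a b => hlev (Sum.inl a) (Sum.inl b)⟩
  exact (comp_of_tp htp (fun a : Fin n => (Sum.inl a : T))).symm

end Pool.Agent.H52.CH.RMX
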